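import Pool.Agent.QEP.Stmts

/-!
Squad QEP, row LOW: lower bound.
-/

set_option autoImplicit false

namespace Pool.Agent.QEP.H81

open scoped ComplexConjugate
open Pool.Agent.QEP

theorem low : LOWStmt := by
  intro k C h T g hC hyp
  have hk0 : (0:ℝ) ≤ k := Nat.cast_nonneg _
  have hC0 : 0 < C := by linarith
  set K : ℝ := k + (1 + k * C) ^ 2 + 2 with hK
  have hK1 : 1 ≤ K := by
    rw [hK]
    have := sq_nonneg (1 + k * C)
    linarith
  have hKC : 1 ≤ 4 * K * C ^ 2 := by nlinarith [sq_nonneg (C - 1)]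
  have hlog0 : 0 ≤ Real.log (4 * K * C ^ 2) := Real.log_nonneg hKC
  refine ⟨Real.log (4 * K * C ^ 2) + 4 * C ^ 2 + 1 + 2 * C, by nlinarith, ?_⟩
  intro s s' t t' r r' hr hr'
  set P : ℝ := ∑ i, ‖h (s i) - h (s' i)‖ ^ 2 with hP
  set W : ℝ := ((t + ∑ i, T (s i)) - (t' + ∑ i, T (s' i)) +
    2 * (∑ i, h (s i) * conj (h (s' i))).im) with hW
  set N : ℝ := (P + r + r') ^ 2 + W ^ 2 with hN
  set G : ℝ := ∑ i, ‖g (s i) r - g (s' i) r'‖ with hG
  have hP0 : 0 ≤ P := Finset.sum_nonneg fun i _ => by positivity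
  have hG0 : 0 ≤ G := Finset.sum_nonneg fun i _ => norm_nonneg _
  have hN0 : 0 < N := by
    rw [hN]
    have : 0 < P + r + r' := by linarith
    positivity
  have hsq1 : P + r + r' ≤ √N := by
    refine Real.le_sqrt_of_sq_le ?_
    rw [hN]
    nlinarith [sq_nonneg W]
  have hsq2 : |W| ≤ √N := by
    refine Real.abs_le_sqrt ?_
    rw [hN]
    nlinarith [sq_nonneg (P + r + r')]
  have hsN : 0 < √N := Real.sqrt_pos.2 hN0
  set rb : ℝ := 2 * √N with hrbdef
  have hrb : 0 < rb := by positivity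
  have hrrb : r ≤ rb := by linarith
  have hrrb' : r' ≤ rb := by linarith
  set lQ : ℝ := Real.log (N / (r * r')) with hlQ
  have hlQ1 : lQ = Real.log N - (Real.log r + Real.log r') := by
    rw [hlQ, Real.log_div hN0.ne' (by positivity), Real.log_mul hr.ne' hr'.ne']
  have hlrb : Real.log rb = Real.log 2 + Real.log N / 2 := by
    rw [hrbdef, Real.log_mul (by norm_num) hsN.ne', Real.log_sqrt hN0.le]
  have hlog2 : 0 < Real.log 2 := Real.log_pos (by norm_num)
  have hlQ4 : 2 * Real.log 2 ≤ lQ := by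
    have h4 : Real.log 4 = 2 * Real.log 2 := by
      rw [show (4:ℝ) = 2 ^ 2 by norm_num, Real.log_pow]
      norm_num
    rw [← h4, hlQ]
    refine Real.log_le_log (by norm_num) ?_
    rw [le_div_iff₀ (by positivity), hN]
    nlinarith [sq_nonneg (r - r'), sq_nonneg W, mul_nonneg hP0 hr.le, mul_nonneg hP0 hr'.le,
      sq_nonneg P]
  have hlQ0 : 0 ≤ lQ := by linarith
  -- the distance in the flat factor at height rb
  have hg : ∀ i, ‖g (s i) rb - g (s' i) rb‖ ≤ G + 2 * C + 2 * C * lQ := by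
    intro i
    have h1 := (hyp (s i) (s i) r rb hr hrb).2.2.1
    have h2 := (hyp (s' i) (s' i) rb r' hrb hr').2.2.1
    rw [sub_self, abs_zero, zero_div, add_zero, Real.log_one, add_zero] at h1 h2
    have e1 : |Real.log (r / rb)| = Real.log rb - Real.log r := by
      rw [Real.log_div hr.ne' hrb.ne', abs_of_nonpos]
      · ring
      · have := Real.log_le_log hr hrrb
        linarith
    have e2 : |Real.log (rb / r')| = Real.log rb - Real.log r' := by
      rw [Real.log_div hrb.ne' hr'.ne', abs_of_nonneg]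
      have := Real.log_le_log hr' hrrb'
      linarith
    rw [e1] at h1
    rw [e2] at h2
    have h3 : ‖g (s i) r - g (s' i) r'‖ ≤ G :=
      Finset.single_le_sum (f := fun i => ‖g (s i) r - g (s' i) r'‖)
        (fun j _ => norm_nonneg _) (Finset.mem_univ i)
    have h4 : g (s i) rb - g (s' i) rb =
        (-(g (s i) r - g (s i) rb) + (g (s i) r - g (s' i) r')) -
          (g (s' i) rb - g (s' i) r') := by ring
    rw [h4]
    have h5 := norm_sub_le (-(g (s i) r - g (s i) rb) + (g (s i) r - g (s' i) r'))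
      (g (s' i) rb - g (s' i) r')
    have h6 := norm_add_le (-(g (s i) r - g (s i) rb)) (g (s i) r - g (s' i) r')
    rw [norm_neg] at h6
    have h7 : C * (1 + (Real.log rb - Real.log r)) + C * (1 + (Real.log rb - Real.log r')) =
        2 * C + C * (2 * Real.log 2 + lQ) := by
      rw [hlrb, hlQ1]
      ring
    have h8 : C * (2 * Real.log 2 + lQ) ≤ C * (2 * lQ) :=
      mul_le_mul_of_nonneg_left (by linarith) hC0.le
    linarith
  set M : ℝ := C * (G + 2 * C + 2 * C * lQ) with hM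
  have hM0 : 0 ≤ M := by positivity
  set E : ℝ := C * rb * Real.exp M with hE
  have hE0 : 0 < E := by positivity
  have hrbE : rb ≤ E := by
    have h1 : 1 ≤ Real.exp M := Real.one_le_exp hM0
    have h2 : 1 ≤ C * Real.exp M := by nlinarith
    calc rb = rb * 1 := (mul_one _).symm
      _ ≤ rb * (C * Real.exp M) := mul_le_mul_of_nonneg_left h2 hrb.le
      _ = E := by rw [hE]; ring
  have hs : ∀ i, |s i - s' i| ≤ E := by
    intro i
    have h1 : ‖h (s i) - h (s' i)‖ ^ 2 ≤ P :=
      Finset.single_le_sum (f := fun i => ‖h (s i) - h (s' i)‖ ^ 2)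
        (fun j _ => by positivity) (Finset.mem_univ i)
    have h2 : ‖h (s i) - h (s' i)‖ ^ 2 < rb := by linarith
    have h3 := (hyp (s i) (s' i) rb rb hrb hrb).2.2.2 h2
    refine h3.trans ?_
    rw [hE]
    refine mul_le_mul_of_nonneg_left (Real.exp_le_exp.2 ?_) (by positivity)
    exact mul_le_mul_of_nonneg_left (hg i) hC0.le
  have ht : |t - t'| ≤ (1 + k * C) * E := by
    have e1 : t - t' = W - ∑ i, (T (s i) - T (s' i) + 2 * (h (s i) * conj (h (s' i))).im) := by
      rw [hW, Complex.im_sum, Finset.sum_add_distrib, Finset.sum_sub_distrib, Finset.mul_sum]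
      ring
    have h1 : |∑ i, (T (s i) - T (s' i) + 2 * (h (s i) * conj (h (s' i))).im)| ≤ k * C * E := by
      refine (Finset.abs_sum_le_sum_abs _ _).trans ?_
      calc ∑ i, |T (s i) - T (s' i) + 2 * (h (s i) * conj (h (s' i))).im| ≤
          ∑ _i : Fin k, C * E := by
            refine Finset.sum_le_sum fun i _ => ?_
            refine ((hyp (s i) (s' i) 1 1 one_pos one_pos).2.1).trans ?_
            exact mul_le_mul_of_nonneg_left (hs i) hC0.le
        _ = k * C * E := by
            rw [Finset.sum_const, Finset.card_univ, Fintype.card_fin, nsmul_eq_mul]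
            ring
    rw [e1]
    have h2 := abs_sub W (∑ i, (T (s i) - T (s' i) + 2 * (h (s i) * conj (h (s' i))).im))
    have h3 : |W| ≤ E := by linarith
    calc _ ≤ |W| + |∑ i, (T (s i) - T (s' i) + 2 * (h (s i) * conj (h (s' i))).im)| := h2
      _ ≤ E + k * C * E := add_le_add h3 h1
      _ = _ := by ring
  have hS : ∑ i, (s i - s' i) ^ 2 + (t - t') ^ 2 + r ^ 2 + r' ^ 2 ≤ K * E ^ 2 := by
    have h1 : ∑ i, (s i - s' i) ^ 2 ≤ k * E ^ 2 := by
      calc ∑ i, (s i - s' i) ^ 2 ≤ ∑ _i : Fin k, E ^ 2 := by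
            refine Finset.sum_le_sum fun i _ => ?_
            rw [← sq_abs (s i - s' i)]
            exact pow_le_pow_left₀ (abs_nonneg _) (hs i) 2
        _ = k * E ^ 2 := by
            rw [Finset.sum_const, Finset.card_univ, Fintype.card_fin, nsmul_eq_mul]
    have h2 : (t - t') ^ 2 ≤ ((1 + k * C) * E) ^ 2 := by
      rw [← sq_abs (t - t')]
      exact pow_le_pow_left₀ (abs_nonneg _) ht 2
    have h3 : r ^ 2 ≤ E ^ 2 := pow_le_pow_left₀ hr.le (by linarith) 2
    have h4 : r' ^ 2 ≤ E ^ 2 := pow_le_pow_left₀ hr'.le (by linarith) 2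
    calc _ ≤ k * E ^ 2 + ((1 + k * C) * E) ^ 2 + E ^ 2 + E ^ 2 := by linarith
      _ = K * E ^ 2 := by rw [hK]; ring
  have hS0 : 0 < ∑ i, (s i - s' i) ^ 2 + (t - t') ^ 2 + r ^ 2 + r' ^ 2 := by
    have h1 : 0 ≤ ∑ i, (s i - s' i) ^ 2 := Finset.sum_nonneg fun i _ => by positivity
    positivity
  have hE2 : K * E ^ 2 = 4 * K * C ^ 2 * N * Real.exp (2 * M) := by
    rw [hE, hrbdef, mul_pow, mul_pow, mul_pow, Real.sq_sqrt hN0.le, ← Real.exp_nat_mul]
    push_cast
    ring
  have hmain : Real.log ((∑ i, (s i - s' i) ^ 2 + (t - t') ^ 2 + r ^ 2 + r' ^ 2) / (r * r')) ≤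
      Real.log (4 * K * C ^ 2) + lQ + 2 * M := by
    have h1 : (∑ i, (s i - s' i) ^ 2 + (t - t') ^ 2 + r ^ 2 + r' ^ 2) / (r * r') ≤
        4 * K * C ^ 2 * (N / (r * r')) * Real.exp (2 * M) := by
      calc _ ≤ K * E ^ 2 / (r * r') := by gcongr
        _ = _ := by rw [hE2]; ring
    have h2 : 0 < (∑ i, (s i - s' i) ^ 2 + (t - t') ^ 2 + r ^ 2 + r' ^ 2) / (r * r') := by
      positivity
    refine (Real.log_le_log h2 h1).trans (le_of_eq ?_)
    rw [Real.log_mul (by positivity) (Real.exp_pos _).ne', Real.log_exp,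
      Real.log_mul (by positivity) (by positivity)]
  refine hmain.trans ?_
  have h9 : 0 ≤ Real.log (4 * K * C ^ 2) * (lQ + G) := by positivity
  have h10 : 0 ≤ 4 * C ^ 2 * G := by positivity
  have h11 : 0 ≤ 2 * C * lQ := by positivity
  rw [hM]
  nlinarith

end Pool.Agent.QEP.H81
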